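import Pool.Agent.Lib.helper14.MH2

set_option autoImplicit false

namespace Pool.Agent.Results.MP_411355_ag.Counter

open AlgebraicGeometry CategoryTheory Pool.Agent.MH

/-- The k-scheme (X, π) represents the multigraded Hilbert functor of k[x1,x2,x3] for the grading
w and the function h: for every k-algebra s : k → T the T-points of X over k are in bijection
with the ideals I of T[x1,x2,x3] satisfying IsPt, naturally in T (base change of ideals). -/
def Represents {A : Type} [AddCommGroup A] (w : Fin 3 → A) (h : A → ℕ) (k : Type) [Field k]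
    (X : Scheme.{0}) (π : X ⟶ Spec (CommRingCat.of k)) : Prop :=
  ∃ Φ : ∀ (T : CommRingCat.{0}) (s : CommRingCat.of k ⟶ T),
      {f : Spec T ⟶ X // f ≫ π = Spec.map s} ≃
        {I : Ideal (MvPolynomial (Fin 3) T) // IsPt w h T I},
    ∀ (T T' : CommRingCat.{0}) (s : CommRingCat.of k ⟶ T) (s' : CommRingCat.of k ⟶ T')
      (φ : T ⟶ T') (f : {f : Spec T ⟶ X // f ≫ π = Spec.map s})
      (g : {g : Spec T' ⟶ X // g ≫ π = Spec.map s'}),
      g.1 = Spec.map φ ≫ f.1 →
        (Φ T' s' g).1 = (Φ T s f).1.map (MvPolynomial.map φ.hom)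

theorem closed_pt {k : Type} [Field k] {X : Scheme.{0}} (π : X ⟶ Spec (CommRingCat.of k))
    (p : Spec (CommRingCat.of k) ⟶ X) (hp : p ≫ π = Spec.map (𝟙 _))
    (o : Spec (CommRingCat.of k)) : IsClosed {p o} := by
  have hsub : ∀ a b : Spec (CommRingCat.of k), a = b := fun a b =>
    Subsingleton.elim (α := PrimeSpectrum k) a b
  apply isClosed_of_closure_subset
  intro y hy
  rw [← specializes_iff_mem_closure] at hy
  obtain ⟨U, hU, hyU, -⟩ := exists_isAffineOpen_mem_and_subset (U := ⊤) (x := y) trivial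
  have hxU : p o ∈ U := hy.mem_open U.2 hyU
  have hr : Set.range p ⊆ Set.range hU.fromSpec := by
    rw [hU.range_fromSpec]
    rintro _ ⟨a, rfl⟩
    rw [hsub a o]
    exact hxU
  let l := IsOpenImmersion.lift hU.fromSpec p hr
  have hl : l ≫ hU.fromSpec = p := IsOpenImmersion.lift_fac _ _ _
  obtain ⟨ψ, hψ⟩ := Spec.map_surjective l
  obtain ⟨σ, hσ⟩ := Spec.map_surjective (hU.fromSpec ≫ π)
  have h1 : σ ≫ ψ = 𝟙 _ := by
    apply Spec.map_injective
    rw [Spec.map_comp, hψ, hσ, ← Category.assoc, hl, hp]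
  have h2 : Function.Surjective ψ := fun c => ⟨σ c, by
    rw [← CommRingCat.comp_apply, h1]
    rfl⟩
  have h3 : IsClosedImmersion l := by
    rw [← hψ]
    exact IsClosedImmersion.spec_of_surjective ψ h2
  have h4 : IsClosed (Set.range l) := l.isClosedEmbedding.isClosed_range
  obtain ⟨y', rfl⟩ : y ∈ Set.range hU.fromSpec := by
    rw [hU.range_fromSpec]
    exact hyU
  have h5 : p o = hU.fromSpec (l o) := by
    rw [← hl]
    rfl
  rw [h5] at hy ⊢
  have h6 : l o ⤳ y' := hU.fromSpec.isOpenEmbedding.isInducing.specializes_iff.mp hy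
  obtain ⟨a, ha⟩ := h6.mem_closed h4 ⟨o, rfl⟩
  rw [← ha, hsub a o]
  rfl

theorem result :
    (∀ (K : Type) [Field K], ∃ P Q : Ideal (MvPolynomial (Fin 3) K), P ≠ Q ∧
      ∀ I, IsPt ww hh K I ↔ I = P ∨ I = Q) ∧
    ∀ (k : Type) [Field k] (X : Scheme.{0}) (π : X ⟶ Spec (CommRingCat.of k)),
      Represents ww hh k X π → Nonempty X ∧ ¬ ConnectedSpace X := by
  refine ⟨fun K _ => ⟨IP K, IQ K, IP_ne, fun I => ⟨classify, ?_⟩⟩, ?_⟩
  · rintro (rfl | rfl)
    · exact IP_pt
    · exact IQ_pt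
  rintro k _ X π ⟨Φ, hΦ⟩
  let pP := (Φ (CommRingCat.of k) (𝟙 _)).symm ⟨IP k, IP_pt⟩
  let pQ := (Φ (CommRingCat.of k) (𝟙 _)).symm ⟨IQ k, IQ_pt⟩
  have hP : (Φ _ _ pP).1 = IP k := congrArg Subtype.val (Equiv.apply_symm_apply _ _)
  have hQ : (Φ _ _ pQ).1 = IQ k := congrArg Subtype.val (Equiv.apply_symm_apply _ _)
  let o : Spec (CommRingCat.of k) := IsLocalRing.closedPoint k
  have hsub : ∀ a : Spec (CommRingCat.of k), a = o := fun a =>
    Subsingleton.elim (α := PrimeSpectrum k) a o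
  have gen : ∀ x : X, ∃ (s : CommRingCat.of k ⟶ X.residueField x)
      (g : {g : Spec (X.residueField x) ⟶ X // g ≫ π = Spec.map s}),
      g.1 = X.fromSpecResidueField x := by
    intro x
    obtain ⟨s, hs⟩ := Spec.map_surjective (X.fromSpecResidueField x ≫ π)
    exact ⟨s, ⟨_, hs.symm⟩, rfl⟩
  have img : ∀ (x : X) (s : CommRingCat.of k ⟶ X.residueField x)
      (g : {g : Spec (X.residueField x) ⟶ X // g ≫ π = Spec.map s})
      (p : {f : Spec (CommRingCat.of k) ⟶ X // f ≫ π = Spec.map (𝟙 _)}),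
      g.1 = X.fromSpecResidueField x →
      (Φ _ s g).1 = (Φ _ _ p).1.map (MvPolynomial.map s.hom) → x = p.1 o := by
    intro x s g p hg he
    let g' : {g : Spec (X.residueField x) ⟶ X // g ≫ π = Spec.map s} :=
      ⟨Spec.map s ≫ p.1, by rw [Category.assoc, p.2, Spec.map_id, Category.comp_id]⟩
    have e1 : g = g' := (Φ _ s).injective (Subtype.ext (he.trans (hΦ _ _ _ s s p g' rfl).symm))
    have e2 : X.fromSpecResidueField x = Spec.map s ≫ p.1 := hg.symm.trans (congrArg Subtype.val e1)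
    have e3 : x ∈ Set.range (X.fromSpecResidueField x) := by
      rw [Scheme.range_fromSpecResidueField]
      rfl
    obtain ⟨a, ha⟩ := e3
    rw [← ha, e2, ← hsub (Spec.map s a)]
    rfl
  have two : ∀ x : X, x = pP.1 o ∨ x = pQ.1 o := by
    intro x
    obtain ⟨s, g, hg⟩ := gen x
    rcases classify (Φ _ s g).2 with h | h
    · exact Or.inl (img x s g pP hg (by rw [h, hP, map_monI]))
    · exact Or.inr (img x s g pQ hg (by rw [h, hQ, map_monI]))
  have back : ∀ (p : {f : Spec (CommRingCat.of k) ⟶ X // f ≫ π = Spec.map (𝟙 _)}) (x : X),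
      p.1 o = x → ∃ ψ : X.residueField x ⟶ CommRingCat.of k,
        p.1 = Spec.map ψ ≫ X.fromSpecResidueField x := by
    rintro p x rfl
    exact ⟨_, (Scheme.descResidueField_stalkClosedPointTo_fromSpecResidueField k X p.1).symm⟩
  have ne : pP.1 o ≠ pQ.1 o := by
    intro h
    obtain ⟨s, g, hg⟩ := gen (pQ.1 o)
    obtain ⟨ψ1, h1⟩ := back pP _ h
    obtain ⟨ψ2, h2⟩ := back pQ _ rfl
    rw [← hg] at h1 h2
    have e1 := hΦ _ _ s _ ψ1 g pP h1
    have e2 := hΦ _ _ s _ ψ2 g pQ h2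
    rw [hP] at e1
    rw [hQ] at e2
    rcases classify (Φ _ s g).2 with h3 | h3
    · rw [h3, map_monI] at e2
      exact IP_ne e2.symm
    · rw [h3, map_monI] at e1
      exact IP_ne e1
  refine ⟨⟨pP.1 o⟩, fun hc => ?_⟩
  have c1 := closed_pt π pP.1 pP.2 o
  have c2 := closed_pt π pQ.1 pQ.2 o
  have hcomp : ({pP.1 o} : Set X)ᶜ = {pQ.1 o} := by
    ext x
    constructor
    · intro hx
      exact (two x).resolve_left hx
    · intro hx hx'
      exact ne (hx'.symm.trans hx)
  have hclopen : IsClopen ({pP.1 o} : Set X) :=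
    ⟨c1, isClosed_compl_iff.mp (hcomp ▸ c2)⟩
  rcases isClopen_iff.mp hclopen with h | h
  · exact Set.singleton_ne_empty _ h
  · have : pQ.1 o ∈ ({pP.1 o} : Set X) := h ▸ Set.mem_univ _
    exact ne this.symm

end Pool.Agent.Results.MP_411355_ag.Counter
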